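import Mathlib

namespace Pool.Agent.Results.MP_9020c0_gt.No

open Set Metric MeasureTheory Real Filter Topology

theorem mb (h r : ℝ) (hr : 0 ≤ r) (w : ℂ) :
    w ∈ ball (⟨0, h⟩ : ℂ) r ↔ w.re ^ 2 + (w.im - h) ^ 2 < r ^ 2 := by
  rw [mem_ball, Complex.dist_eq_re_im, sqrt_lt (by positivity) hr, sub_zero]

theorem mc (h r : ℝ) (hr : 0 ≤ r) (w : ℂ) :
    w ∈ closedBall (⟨0, h⟩ : ℂ) r ↔ w.re ^ 2 + (w.im - h) ^ 2 ≤ r ^ 2 := by
  rw [mem_closedBall, Complex.dist_eq_re_im, sqrt_le_left hr, sub_zero]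

theorem key {R a b : ℝ} (hb : 0 ≤ b) (ba : b ≤ a) (aR : 3 * a ≤ R) (hR : 0 < R) :
    ∃ k : ℝ → ℝ, Continuous k ∧ (∀ x, 0 < k x) ∧ ∀ x y,
      (x ^ 2 + y ^ 2 ≤ R ^ 2 ∧ a ^ 2 ≤ x ^ 2 + (y + √(R ^ 2 - a ^ 2)) ^ 2 ∧
        b ^ 2 ≤ x ^ 2 + (y + √(R ^ 2 - a ^ 2) - √(a ^ 2 - b ^ 2)) ^ 2) ↔
      x ^ 2 + (max y 0 + min y 0 / k x) ^ 2 ≤ R ^ 2 := by
  have a0 : 0 ≤ a := hb.trans ba
  have hA : 2 * a < √(R ^ 2 - a ^ 2) := lt_sqrt_of_sq_lt (by nlinarith)
  have eA := sq_sqrt (show 0 ≤ R ^ 2 - a ^ 2 by nlinarith)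
  have eB := sq_sqrt (show 0 ≤ a ^ 2 - b ^ 2 by nlinarith)
  have B0 := sqrt_nonneg (a ^ 2 - b ^ 2)
  have s1 (t : ℝ) (c : ℝ) (h : 0 ≤ t) (hc : 0 ≤ c) : √(c ^ 2 - t) ≤ c :=
    (sqrt_le_left hc).mpr (by linarith)
  have Ba := s1 _ _ (sq_nonneg b) a0
  have d (x : ℝ) : 0 < √(R ^ 2 - min (x ^ 2) (a ^ 2)) :=
    sqrt_pos.mpr (by nlinarith [min_le_right (x ^ 2) (a ^ 2)])
  have F (x : ℝ) : 0 < √(R ^ 2 - a ^ 2) - √(a ^ 2 - max (x ^ 2) (b ^ 2)) - √(b ^ 2 - x ^ 2) := by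
    linarith [s1 _ _ (sq_nonneg x) hb, s1 (max (x ^ 2) (b ^ 2)) _ (by positivity) a0]
  refine ⟨fun x => (√(R ^ 2 - a ^ 2) - √(a ^ 2 - max (x ^ 2) (b ^ 2)) - √(b ^ 2 - x ^ 2)) /
    √(R ^ 2 - min (x ^ 2) (a ^ 2)), Continuous.div (by fun_prop) (by fun_prop) fun x => (d x).ne',
    fun x => div_pos (F x) (d x), fun x y => ?_⟩
  have d := d x
  have F := F x
  beta_reduce
  rcases le_total 0 y with y0 | y0
  · rw [max_eq_left y0, min_eq_right y0, zero_div, add_zero]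
    exact and_iff_left ⟨by nlinarith, by nlinarith⟩
  rw [max_eq_right y0, min_eq_left y0, zero_add]
  rcases le_or_gt (a ^ 2) (x ^ 2) with c | c
  · have : b ^ 2 ≤ x ^ 2 := by nlinarith
    rw [min_eq_right c, max_eq_left this, sqrt_eq_zero_of_nonpos (sub_nonpos.mpr c),
      sqrt_eq_zero_of_nonpos (sub_nonpos.mpr this), sub_zero, sub_zero,
      div_self (by linarith), div_one]
    exact and_iff_left ⟨by nlinarith, by nlinarith⟩
  rw [min_eq_left c.le] at d ⊢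
  have ed := sq_sqrt (show 0 ≤ R ^ 2 - x ^ 2 by nlinarith)
  have eq := sq_sqrt (show 0 ≤ a ^ 2 - x ^ 2 by linarith)
  have q0 := sqrt_pos.mpr (sub_pos.mpr c)
  rw [div_div_eq_mul_div, div_pow, mul_pow, ed, ← le_sub_iff_add_le' (c := R ^ 2) (b := _ / _),
    div_le_iff₀ (by positivity), mul_comm (_ - _), mul_le_mul_iff_left₀ (by nlinarith),
    ← neg_sq y, sq_le_sq₀ (by linarith) F.le, neg_sq]
  have u (h1 : x ^ 2 + y ^ 2 ≤ R ^ 2) (h2 : a ^ 2 ≤ x ^ 2 + (y + √(R ^ 2 - a ^ 2)) ^ 2) :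
      √(a ^ 2 - x ^ 2) ≤ y + √(R ^ 2 - a ^ 2) := by
    by_contra! l
    have : y + √(R ^ 2 - a ^ 2) ≤ -√(a ^ 2 - x ^ 2) := by nlinarith
    nlinarith
  rcases le_or_gt (b ^ 2) (x ^ 2) with e | e
  · rw [max_eq_left e, sqrt_eq_zero_of_nonpos (sub_nonpos.mpr e)] at *
    exact ⟨fun h => by linarith [u h.1 h.2.1], fun h => ⟨by nlinarith, by nlinarith, by nlinarith⟩⟩
  · rw [max_eq_right e.le] at *
    have et := sq_sqrt (show 0 ≤ b ^ 2 - x ^ 2 by linarith)
    have t0 := sqrt_pos.mpr (sub_pos.mpr e)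
    refine ⟨fun h => ?_, fun h => ⟨by nlinarith, by nlinarith, by nlinarith⟩⟩
    have := u h.1 h.2.1
    have : √(a ^ 2 - b ^ 2) ≤ √(a ^ 2 - x ^ 2) := sqrt_le_sqrt (by linarith)
    by_contra! l
    nlinarith [h.2.2]

theorem disk {R a b s h h1 h2 : ℝ} (hb : 0 ≤ b) (ba : b ≤ a) (aR : 3 * a ≤ R) (hR : 0 < R)
    (hs : s * s = 1) (e1 : h = h1 + s * √(R ^ 2 - a ^ 2)) (e2 : h1 = h2 - s * √(a ^ 2 - b ^ 2)) :
    Nonempty (↥(closedBall (⟨0, h⟩ : ℂ) R \ (ball ⟨0, h1⟩ a ∪ ball ⟨0, h2⟩ b)) ≃ₜ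
      closedBall (0 : ℂ) 1) := by
  obtain ⟨k, kc, k0, hk⟩ := key hb ba aR hR
  have inv (y t : ℝ) (h : 0 < t) :
      max (max y 0 + min y 0 / t) 0 + min (max y 0 + min y 0 / t) 0 / t⁻¹ = y := by
    rcases le_total 0 y with c | c
    · simp [c]
    · simp [c, div_nonpos_of_nonpos_of_nonneg c h.le, h.ne']
  let Φ : ℂ ≃ₜ ℂ :=
    { toFun := fun w => ⟨w.re, max (s * (w.im - h)) 0 + min (s * (w.im - h)) 0 / k w.re⟩
      invFun := fun w => ⟨w.re, h + s * (max w.im 0 + min w.im 0 / (k w.re)⁻¹)⟩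
      left_inv := fun w => Complex.ext rfl (by
        simp only [inv _ _ (k0 _), ← mul_assoc, hs]
        ring)
      right_inv := fun w => Complex.ext rfl (by
        simpa only [add_sub_cancel_left, ← mul_assoc, hs, one_mul, inv_inv] using
          inv w.im _ (inv_pos.mpr (k0 w.re)))
      continuous_toFun := Complex.equivRealProdCLM.symm.continuous.comp (f := fun w : ℂ => (_, _))
        (by fun_prop (disch := exact fun _ => (k0 _).ne'))
      continuous_invFun := Complex.equivRealProdCLM.symm.continuous.comp (f := fun w : ℂ => (_, _))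
        (by simp only [div_inv_eq_mul]; fun_prop) }
  refine ⟨(Φ.trans (Homeomorph.smulOfNeZero R⁻¹ (inv_ne_zero hR.ne'))).sets (Set.ext fun w => ?_)⟩
  have : (Φ.trans (Homeomorph.smulOfNeZero R⁻¹ (inv_ne_zero hR.ne'))) w ∈ closedBall 0 1 ↔
      Φ w ∈ closedBall (⟨0, 0⟩ : ℂ) R := by
    change R⁻¹ • Φ w ∈ _ ↔ _ ∈ closedBall 0 R
    simp [abs_of_pos hR, inv_mul_le_iff₀ hR]
  have q (t : ℝ) : t ^ 2 = (s * t) ^ 2 := by rw [mul_pow, sq s, hs, one_mul]
  rw [mem_preimage, this, mc _ _ hR.le, sub_zero, show (Φ w).re ^ 2 + (Φ w).im ^ 2 ≤ R ^ 2 ↔ _ from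
    (hk w.re (s * (w.im - h))).symm, Set.mem_sdiff, mem_union, mc _ _ hR.le,
    mb _ _ (hb.trans ba), mb _ _ hb, not_or, not_lt, not_lt, ← q, q (w.im - h1), q (w.im - h2)]
  congr! 5
  · linear_combination s * e1 + √(R ^ 2 - a ^ 2) * hs
  · linear_combination s * e1 + s * e2 + (√(R ^ 2 - a ^ 2) - √(a ^ 2 - b ^ 2)) * hs

theorem circ (c : ℂ) {r : ℝ} (hr : 0 ≤ r) : μH[1] (sphere c r) ≤ ENNReal.ofReal (2 * π * r) := by
  have := (lipschitzWith_circleMap c r).hausdorffMeasure_image_le zero_le_one (Ioc 0 (2 * π))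
  rw [image_circleMap_Ioc, abs_of_nonneg hr, hausdorffMeasure_real, volume_Ioc, sub_zero,
    ENNReal.rpow_one, nnabs_of_nonneg hr] at this
  rwa [ENNReal.ofReal_mul (by positivity), mul_comm]

theorem ratio {R a b δ c : ℝ} (u v w : ℂ) (hb : 0 ≤ b) (ba : b ≤ a) (aR : a ≤ δ * R) (hR : 0 < R)
    (c0 : 0 < c) (hc : 4 * π * (1 + 2 * δ) ^ 2 ≤ c * (1 - 2 * δ ^ 2)) :
    μH[1] (frontier (closedBall u R \ (ball v a ∪ ball w b))) ^ 2 /
      volume (closedBall u R \ (ball v a ∪ ball w b)) ≤ ENNReal.ofReal c := by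
  have a0 := hb.trans ba
  have L : μH[1] (frontier (closedBall u R \ (ball v a ∪ ball w b))) ≤
      ENNReal.ofReal (2 * π * (R + a + b)) := by
    have : frontier (closedBall u R \ (ball v a ∪ ball w b)) ⊆
        sphere u R ∪ sphere v a ∪ sphere w b := fun p hp => by
      rcases frontier_inter_subset _ (_ ∪ _)ᶜ hp with h | ⟨-, h⟩
      · exact .inl (.inl (frontier_closedBall_subset_sphere h.1))
      · rw [frontier_compl] at h
        rcases frontier_union_subset _ _ h with h | h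
        exacts [.inl (.inr (frontier_ball_subset_sphere h.1)), .inr (frontier_ball_subset_sphere h.2)]
    refine (measure_mono this).trans ((measure_union_le _ _).trans ?_)
    rw [mul_add, mul_add, ENNReal.ofReal_add (by positivity) (by positivity),
      ENNReal.ofReal_add (by positivity) (by positivity)]
    exact add_le_add ((measure_union_le _ _).trans (add_le_add (circ _ hR.le) (circ _ a0)))
      (circ _ hb)
  have V : ENNReal.ofReal (π * R ^ 2 - (π * a ^ 2 + π * b ^ 2)) ≤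
      volume (closedBall u R \ (ball v a ∪ ball w b)) := by
    have e (r : ℝ) (h : 0 ≤ r) : ENNReal.ofReal r ^ 2 * NNReal.pi = ENNReal.ofReal (π * r ^ 2) := by
      rw [mul_comm, ENNReal.ofReal_mul pi_pos.le, ENNReal.ofReal_pow h, ← NNReal.coe_real_pi,
        ENNReal.ofReal_coe_nnreal]
    refine le_trans ?_ le_measure_sdiff
    rw [ENNReal.ofReal_sub _ (by positivity), Complex.volume_closedBall, e _ hR.le,
      ENNReal.ofReal_add (by positivity) (by positivity), ← e _ a0, ← e _ hb,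
      ← Complex.volume_ball v, ← Complex.volume_ball w]
    exact tsub_le_tsub_left (measure_union_le _ _) _
  refine ENNReal.div_le_of_le_mul ((pow_le_pow_left' L 2).trans (le_trans ?_ (mul_le_mul_right V _)))
  rw [← ENNReal.ofReal_pow (by positivity), ← ENNReal.ofReal_mul c0.le]
  refine ENNReal.ofReal_le_ofReal ?_
  have x : (R + a + b) ^ 2 ≤ (R * (1 + 2 * δ)) ^ 2 := pow_le_pow_left₀ (by positivity) (by linarith) 2
  have y : a ^ 2 ≤ (δ * R) ^ 2 := pow_le_pow_left₀ a0 aR 2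
  have z : b ^ 2 ≤ (δ * R) ^ 2 := pow_le_pow_left₀ hb (ba.trans aR) 2
  have := mul_le_mul_of_nonneg_left hc (show 0 ≤ π * R ^ 2 by positivity)
  have := mul_le_mul_of_nonneg_left x (show 0 ≤ 4 * π ^ 2 by positivity)
  have := mul_le_mul_of_nonneg_left (add_le_add y z) (show 0 ≤ c * π by positivity)
  nlinarith

noncomputable def H (r : ℕ → ℝ) : ℕ → ℝ
  | 0 => 0
  | n + 1 => H r n + (-1) ^ n * √(r (n + 1) ^ 2 - r n ^ 2)

theorem result : 4 * π < 8 * √3 ∧ ∀ D₀ c : ℝ, 4 * π < c → ∃ T : ℕ → Set ℂ,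
    ⋃ n, T n = univ ∧ (∀ m n, m ≠ n → Disjoint (interior (T m)) (interior (T n))) ∧
    ∀ n, IsClosed (T n) ∧ Bornology.IsBounded (T n) ∧ Nonempty (T n ≃ₜ closedBall (0 : ℂ) 1) ∧
      D₀ ≤ diam (T n) ∧ μH[1] (frontier (T n)) ^ 2 / volume (T n) ≤ ENNReal.ofReal c := by
  refine ⟨by nlinarith [pi_lt_d2, lt_sqrt_of_sq_lt (show (1.7 : ℝ) ^ 2 < 3 by norm_num)],
    fun D₀ c hc => ?_⟩
  obtain ⟨δ, d1, d0, d2⟩ : ∃ δ : ℝ, 4 * π * (1 + 2 * δ) ^ 2 < c * (1 - 2 * δ ^ 2) ∧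
      δ ∈ Ioo 0 (1 / 4) := by
    refine (Eventually.and (f := 𝓝[>] 0) (nhdsWithin_le_nhds ?_) (Ioo_mem_nhdsGT (by norm_num))).exists
    exact ContinuousAt.eventually_lt (by fun_prop) (by fun_prop) (by simpa)
  let r : ℕ → ℝ := fun n => if n < 2 then 0 else (|D₀| + 1) * δ⁻¹ ^ n
  have i1 : 1 < δ⁻¹ := one_lt_inv₀ d0 |>.mpr (by linarith)
  have r0 n : 0 ≤ r n := by
    simp only [r]
    split_ifs <;> positivity
  have r1 n : r n ≤ δ * r (n + 1) := by
    by_cases h : n < 2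
    · exact (if_pos h).trans_le (mul_nonneg d0.le (r0 _))
    · simp only [r, h, show ¬n + 1 < 2 by omega, if_false, pow_succ]
      field_simp
      rfl
  have r2 n : 4 * r n ≤ r (n + 1) := by nlinarith [r1 n, r0 (n + 1)]
  have r3 n : δ⁻¹ ^ (n + 2) + |D₀| ≤ r (n + 2) := by
    simp only [r, show ¬n + 2 < 2 by omega, if_false]
    nlinarith [one_le_pow₀ (n := n + 2) i1.le, abs_nonneg D₀]
  have r4 n : 0 < r (n + 2) := lt_of_lt_of_le (by positivity) (r3 n)
  have s1 n : √(r (n + 1) ^ 2 - r n ^ 2) ≤ r (n + 1) :=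
    (sqrt_le_left (r0 _)).mpr (by nlinarith)
  have s2 n : r (n + 1) - r n ≤ √(r (n + 1) ^ 2 - r n ^ 2) :=
    le_sqrt_of_sq_le (by nlinarith [r2 n, r0 n])
  let C : ℕ → ℂ := fun n => ⟨0, H r n⟩
  have dC n : dist (C n) (C (n + 2)) ≤ r (n + 2) - 3 * r n := by
    rw [Complex.dist_of_re_eq (by rfl), Real.dist_eq]
    simp only [C, H, pow_succ (-1 : ℝ)]
    have := s1 n
    have := s1 (n + 1)
    have := s2 n
    have := s2 (n + 1)
    have := r2 n
    have := r2 (n + 1)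
    have := r0 n
    rcases neg_one_pow_eq_or ℝ n with h | h <;> rw [h, abs_le] <;> constructor <;> linarith
  have nC n : dist 0 (C n) ≤ 2 * r n := by
    rw [Complex.dist_of_re_eq (by rfl), Real.dist_eq, Complex.zero_im, zero_sub, abs_neg]
    induction n with
    | zero => simp [C, H, r]
    | succ n ih =>
      simp only [C, H] at *
      refine (abs_add_le _ _).trans ?_
      rw [abs_mul, abs_neg_one_pow, abs_of_nonneg (sqrt_nonneg _)]
      linarith [s1 n, r2 n, r0 n]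
  have nest m n (h : m ≤ n + 1) :
      ball (C m) (r m) ⊆ ball (C (n + 1)) (r (n + 1)) ∪ ball (C n) (r n) := by
    induction n with
    | zero => interval_cases m <;> simp
    | succ n ih =>
      rcases h.eq_or_lt with rfl | h
      · exact subset_union_left
      · exact (ih (by omega)).trans (union_subset subset_union_right
          ((ball_subset_ball' (by linarith [dC n, r0 n])).trans subset_union_left))
  let T : ℕ → Set ℂ := fun n =>
    closedBall (C (n + 2)) (r (n + 2)) \ (ball (C (n + 1)) (r (n + 1)) ∪ ball (C n) (r n))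
  have dj m n (h : m < n) : Disjoint (interior (T m)) (interior (T n)) :=
    disjoint_left.mpr fun p a b => (interior_subset b).2 (nest (m + 2) n (by omega)
      (interior_closedBall' (C _) (r _) ▸ interior_mono sdiff_subset a))
  have bd n : Bornology.IsBounded (T n) := isBounded_closedBall.subset sdiff_subset
  refine ⟨T, eq_univ_of_forall fun p => ?_, fun m n h => ?_, fun n => ⟨?_, bd n, ?_, ?_, ?_⟩⟩
  · have ex : ∃ n, p ∈ closedBall (C (n + 2)) (r (n + 2)) := by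
      obtain ⟨n, hn⟩ := pow_unbounded_of_one_lt (dist p 0) i1
      have := pow_le_pow_right₀ i1.le (show n ≤ n + 2 by omega)
      exact ⟨n + 2, mem_closedBall.mpr (by
        linarith [dist_triangle4 p 0 (C (n + 2)) (C (n + 2 + 2)), dC (n + 2), nC (n + 2), r3 n,
          abs_nonneg D₀])⟩
    classical
    have k m (h : m < Nat.find ex + 2) : p ∉ ball (C m) (r m) := fun q => by
      by_cases a : m < 2
      · exact dist_nonneg.not_gt (q.trans_eq (if_pos a))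
      · obtain ⟨m, rfl⟩ : ∃ j, m = j + 2 := ⟨m - 2, by omega⟩
        exact Nat.find_min ex (by omega : m < _) (ball_subset_closedBall q)
    exact mem_iUnion.mpr ⟨_, Nat.find_spec ex, fun q => q.elim (k _ (by omega)) (k _ (by omega))⟩
  · rcases h.lt_or_gt with h | h
    exacts [dj _ _ h, (dj _ _ h).symm]
  · exact isClosed_closedBall.sdiff (isOpen_ball.union isOpen_ball)
  · exact disk (s := (-1) ^ (n + 1)) (r0 _) (by linarith [r2 n, r0 n])
      (by linarith [r2 (n + 1), r0 (n + 1)]) (r4 n) (by simp [← mul_pow]) rfl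
      (by simp [H, pow_succ (-1 : ℝ)])
  · have m (x : ℝ) (h : x ^ 2 = r (n + 2) ^ 2) : (⟨x, H r (n + 2)⟩ : ℂ) ∈ T n := by
      have := r2 n
      have := r2 (n + 1)
      have := r0 n
      simp only [T, C, Set.mem_sdiff, mem_union, mb _ _ (r0 _), mc _ _ (r0 _), h, not_or, not_lt]
      exact ⟨by simp, by nlinarith [sq_nonneg (H r (n + 2) - H r (n + 1))],
        by nlinarith [sq_nonneg (H r (n + 2) - H r n)]⟩
    refine le_trans ?_ (dist_le_diam_of_mem (bd n) (m _ rfl) (m _ (neg_sq _)))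
    rw [Complex.dist_of_im_eq (by rfl), Real.dist_eq]
    have : 0 < δ⁻¹ ^ (n + 2) := by positivity
    exact le_abs.mpr (.inl (by linarith [r3 n, r4 n, le_abs_self D₀]))
  · exact ratio _ _ _ (r0 _) (by linarith [r2 n, r0 n]) (r1 _) (r4 n) (by linarith [pi_pos]) d1.le

end Pool.Agent.Results.MP_9020c0_gt.No
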